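import Pool.Agent.helper7.ZD.Spec
import Pool.Agent.helper7.ZB.ZFD

/-!
# Theorem ZD (MP_baa4d7_al), row NDQ: the final statement in terms of the defect group
-/

set_option autoImplicit false

namespace Pool.Agent.ND.NY

open Pool.Agent.helper58.DC Pool.Agent.DI Pool.Agent.GR Pool.Agent.OB Pool.Agent.DR Pool.Agent.FI Pool.Agent.FI3 Pool.Agent.FI4 Pool.Agent.FI4I Pool.Agent.LE Pool.Agent.L5 Pool.Agent.NAB
open Pool.Agent.ZB (Pm Om KZ EQ BQ lQ MZc BDK)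

theorem NDQ_count {p : ℕ} (hp : p.Prime) {G : Type} [Group G] [Finite G] {Z : Subgroup G}
    (hZp : IsPGroup p Z) {a s w : ℕ} (h1 : (Om p (s - a) Z).ncard ≤ p)
    (h2 : ∃ z ∈ Z, z ^ p ^ (s + w) ≠ 1) :
    (Om p (s - a) Z).ncard = p ^ 1 ∧ (Om p (s + w) Z).ncard = p ^ 1 := by
  obtain ⟨z, hz, hz1⟩ := h2
  have hsub : Om p (s + w) Z ⊆ Om p (s - a) Z := by
    rintro y ⟨hy, u, hu, huy⟩
    refine ⟨hy, u ^ p ^ (w + (s - (s - a))), Z.pow_mem hu _, ?_⟩
    rw [← pow_mul, ← pow_add]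
    have h3 : w + (s - (s - a)) + (s - a) = s + w := by omega
    rw [h3]
    exact huy
  have hp1 : p ≤ (Om p (s + w) Z).ncard := by
    obtain ⟨k, hk⟩ := hZp ⟨z, hz⟩
    have hk' : z ^ p ^ k = 1 := by
      have h4 := congrArg Subtype.val hk
      simpa using h4
    -- the smallest exponent
    have hex : ∃ n : ℕ, (z ^ p ^ (s + w)) ^ p ^ n = 1 := by
      refine ⟨k, ?_⟩
      rw [← pow_mul, mul_comm, pow_mul, hk', one_pow]
    classical
    have hn := Nat.find_spec hex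
    have hn0 : Nat.find hex ≠ 0 := by
      intro h0
      rw [h0, pow_zero, pow_one] at hn
      exact hz1 hn
    obtain ⟨n, hnn⟩ := Nat.exists_eq_succ_of_ne_zero hn0
    have hmin : ¬ (z ^ p ^ (s + w)) ^ p ^ n = 1 := Nat.find_min hex (by omega)
    set y : G := (z ^ p ^ (s + w)) ^ p ^ n with hy
    have hyp : y ^ p = 1 := by
      rw [hy, ← pow_mul, ← pow_succ]
      rw [hnn] at hn
      exact hn
    have hord : orderOf y = p := by
      have : Fact p.Prime := ⟨hp⟩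
      exact orderOf_eq_prime hyp hmin
    have hcard : Nat.card (Subgroup.zpowers y) = p := by
      rw [Nat.card_zpowers, hord]
    have hss : ((Subgroup.zpowers y : Subgroup G) : Set G) ⊆ Om p (s + w) Z := by
      intro u hu
      obtain ⟨i, hi⟩ := Subgroup.mem_zpowers_iff.1 hu
      refine ⟨?_, (z ^ p ^ n) ^ i, Z.zpow_mem (Z.pow_mem hz _) _, ?_⟩
      · rw [← hi, ← zpow_natCast, ← zpow_mul, mul_comm, zpow_mul, zpow_natCast, hyp, one_zpow]
      · rw [← hi, hy, ← zpow_natCast, ← zpow_mul, mul_comm, zpow_mul, zpow_natCast, ← pow_mul,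
          ← pow_mul, mul_comm]
    have h5 := Set.ncard_le_ncard hss (Set.toFinite _)
    have h6 : ((Subgroup.zpowers y : Subgroup G) : Set G).ncard = p := by
      rw [← hcard]
      rfl
    rwa [h6] at h5
  have h7 := Set.ncard_le_ncard hsub (Set.toFinite _)
  rw [pow_one]
  omega

theorem NDQ (hTDF : TDF_stmt) (hGKD : GKD_stmt) (hZMN : Pool.Agent.ZB.ZMN_stmt) (hCLS : CLS_stmt)
    (hTPR : Pool.Agent.FI.TPR_stmt) : NDQ_stmt := by
  intro p M hS a r s w has haw hBD G _ _ χ hχ D hD Z hZ hc hcard hrank hom1 hexp hOp d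
  have hpr : p.Prime := hS.pr
  obtain ⟨hT1, -, hT3, -, hT5⟩ := hTPR p M hS G
  have hom : ∀ y : G, omega χ y = cc χ (cls ⊤ y) := fun y => (hCLS G ⊤ y).2.2.2.2.2.2.2.1 χ
  have hint : ∀ y : G, IsIntegral ℤ (cc χ (cls ⊤ y)) := fun y =>
    (hCLS G ⊤ y).2.2.2.2.2.2.2.2 ⊤ le_rfl χ (by rw [hT1]; exact hχ)
  have hnv : ∀ w : G, Pool.Agent.MAP.NonVan M χ w ↔ ¬ InM M (omega χ w) := by
    intro w
    constructor
    · intro h h1
      rw [hom] at h1
      have h2 : InM M (((⟨cc χ (cls ⊤ w), hint w⟩ : integralClosure ℤ ℂ)) : ℂ) := h1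
      exact h _ (InM.mem hS h2) (hom w)
    · intro h a ha h1
      apply h
      rw [h1]
      exact InM.coe hS ha
  obtain ⟨x, h1, h2, h3, h4, h5, h6⟩ := hD
  have hDcard : Nat.card D = pp p (Subgroup.centralizer ({x} : Set G)) :=
    (Pool.Agent.ZB.ZFD_pp hpr h3 h4).2 h5
  have hDA : DefAt p M χ D x := by
    refine ⟨h1, (hnv x).1 h2, h3, h4, hDcard, fun y hy => ?_⟩
    obtain ⟨Q, h7, h8, h9⟩ := h6 y ((hnv y).2 hy)
    exact h9.trans (Pool.Agent.ZB.ZFD_pp hpr h7 h8).1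
  have hOm : Om p 0 Z = {z | z ∈ Z ∧ z ^ p = 1} := by
    ext y
    constructor
    · rintro ⟨k1, z, hz, k2⟩
      rw [pow_zero, pow_one] at k2
      rw [← k2]
      rw [← k2] at k1
      exact ⟨hz, k1⟩
    · rintro ⟨k1, k2⟩
      refine ⟨k2, y, k1, ?_⟩
      rw [pow_zero, pow_one]
  have hZp : IsPGroup p Z := h4.to_le hZ
  obtain ⟨hc1, hc2⟩ := NDQ_count hpr hZp hom1 hexp
  have hK : KZ p (⟨a, r, s, w, 1⟩ : Pm) D :=
    ⟨has, le_rfl, h4, Z, hZ, hc, hcard, by rw [hOm]; exact hrank, hc1, hc2⟩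
  have hB : BDK p (⟨a, r, s, w, 1⟩ : Pm) M w := hBD _ rfl rfl rfl
  exact hTDF p ⟨a, r, s, w, 1⟩ M hS G χ hχ D x (hT3 χ D x hDA) hK hOp d
    (fun N => hGKD p ⟨a, r, s, w, 1⟩ M hS rfl haw N
      (fun N' => hZMN p ⟨a, r, s, w, 1⟩ M hS hB N') d)

end Pool.Agent.ND.NY
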